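import Pool.Agent.E8helper15.FT.Stm

/-!
# Project FT, piece UP: from abc to Frey's inequality for all elliptic curves
-/

set_option autoImplicit false

namespace Pool.Agent.E8helper25.FT

open NumberField IsDedekindDomain
open Pool.Agent.TH876.FH (faltings IsPeriod GoodAt badNorm HjS LhS)
open Pool.Agent.E8helper15.FT

/-- the primes over `6` are finite in number -/
theorem fin_six (K : Type) [Field K] [NumberField K] :
    {v : HeightOneSpectrum (𝓞 K) | v.valuation K (6 : K) ≠ 1}.Finite := by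
  have h6 : (6 : 𝓞 K) ≠ 0 := by norm_num
  have hI : Ideal.span {(6 : 𝓞 K)} ≠ 0 := by
    rw [Ne, Ideal.zero_eq_bot, Ideal.span_singleton_eq_bot]
    exact h6
  refine (Ideal.finite_factors hI).subset ?_
  intro v hv
  have h1 : v.valuation K (algebraMap (𝓞 K) K 6) ≤ 1 := v.valuation_le_one 6
  have h2 : algebraMap (𝓞 K) K 6 = (6 : K) := map_ofNat _ 6
  have h3 : v.valuation K (algebraMap (𝓞 K) K 6) < 1 := by
    rcases lt_or_eq_of_le h1 with h | h
    · exact h
    · rw [h2] at h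
      exact absurd h hv
  exact (v.valuation_lt_one_iff_dvd 6).1 h3

/-- UP -/
theorem t_UP (hj : HjS) (h1 : S_HT) (h2 : S_JV) (h3 : S_RB) (h4 : S_BAD) : S_UP := by
  classical
  intro K _ _ hA ε hε
  obtain ⟨c1, hc1⟩ := (hj K).2
  obtain ⟨c2, hc2⟩ := h1 K
  obtain ⟨c4, hc4⟩ := h3 K
  have hδ : 0 < ε / (3 + 5 * ε) := by positivity
  obtain ⟨c3, hc3⟩ := hA (ε / (3 + 5 * ε)) hδ
  set F6 : Finset (HeightOneSpectrum (𝓞 K)) := (fin_six K).toFinset with hF6
  set c5 : ℝ := ∑ v ∈ F6, Real.log (Ideal.absNorm v.asIdeal) with hc5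
  set M0 : ℝ := |Height.logHeight₁ (1728 * (0 : K))| + |Height.logHeight₁ (1728 * (1 : K))| +
    |c1| with hM0
  set C : ℝ := (1 + ε / (3 + 5 * ε)) * (c5 + c4) + c3 with hCdef
  refine ⟨max M0 ((2 * (3 + 5 * ε) * C + c2 + c1) / 12), ?_⟩
  intro E _ hE τ hτ
  obtain ⟨B, hB1, hB2, hB3⟩ := h4 K E hE
  have hfal := hc1 (E.c₄ ^ 3 / E.Δ) τ hτ
  set n : ℝ := (Module.finrank ℚ K : ℝ) with hn
  set φ : ℝ := faltings (E.c₄ ^ 3 / E.Δ) τ with hφ
  obtain ⟨l, hl⟩ : ∃ l : K, E.c₄ ^ 3 / E.Δ = 1728 * l := by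
    refine ⟨E.c₄ ^ 3 / E.Δ / 1728, ?_⟩
    have h1728 : (1728 : K) ≠ 0 := by norm_num
    field_simp
  have hfal2 : 12 * (n * φ) ≤ Height.logHeight₁ (1728 * l) + c1 := by
    rw [← hl]
    linarith
  have hbad : 0 ≤ (1 / 2 + ε) * Real.log (badNorm E) := mul_nonneg (by linarith) hB3
  by_cases h01 : l = 0 ∨ l = 1
  · have hM : Height.logHeight₁ (1728 * l) + c1 ≤ M0 := by
      rcases h01 with h | h
      · rw [h, hM0]
        have := le_abs_self (Height.logHeight₁ (1728 * (0 : K)))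
        have := abs_nonneg (Height.logHeight₁ (1728 * (1 : K)))
        have := le_abs_self c1
        linarith
      · rw [h, hM0]
        have := le_abs_self (Height.logHeight₁ (1728 * (1 : K)))
        have := abs_nonneg (Height.logHeight₁ (1728 * (0 : K)))
        have := le_abs_self c1
        linarith
    have hM0' : 0 ≤ M0 := by rw [hM0]; positivity
    have := le_max_left M0 ((2 * (3 + 5 * ε) * C + c2 + c1) / 12)
    linarith
  · push Not at h01
    obtain ⟨hl0, hl1⟩ := h01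
    have a1 := hc3 l (Set.mem_univ l) hl0 hl1
    have a2 := hc4 l (B ∪ F6) hl0 hl1 (by
      intro v hv
      rw [Finset.mem_union, not_or] at hv
      obtain ⟨hv1, hv2⟩ := hv
      have g1 : GoodAt v E := by
        by_contra hcon
        exact hv1 ((hB1 v).2 hcon)
      have g2 : v.valuation K (6 : K) = 1 := by
        by_contra hcon
        apply hv2
        rw [hF6, Set.Finite.mem_toFinset]
        exact hcon
      exact h2 K E hE v g1 g2 l hl)
    have a3 : ∑ v ∈ B ∪ F6, Real.log (Ideal.absNorm v.asIdeal) ≤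
        Real.log (badNorm E) + c5 := by
      rw [hB2, hc5]
      have hnn : ∀ v : HeightOneSpectrum (𝓞 K), 0 ≤ Real.log (Ideal.absNorm v.asIdeal) :=
        fun v => Real.log_natCast_nonneg _
      have := Finset.sum_union_inter (s₁ := B) (s₂ := F6)
        (f := fun v : HeightOneSpectrum (𝓞 K) => Real.log (Ideal.absNorm v.asIdeal))
      have h0 : 0 ≤ ∑ v ∈ B ∩ F6, Real.log (Ideal.absNorm v.asIdeal) :=
        Finset.sum_nonneg fun v _ => hnn v
      linarith
    have a4 := (hc2 l).2.2.2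
    set H := Height.logHeight₁ l
    set Lb := Real.log (badNorm E)
    set δ := ε / (3 + 5 * ε) with hδd
    have hδ1 : δ * (3 + 5 * ε) = ε := by
      rw [hδd]
      field_simp
    have a5 : H ≤ (1 + δ) * (5 / 6 * H + (Lb + c5) + c4) + c3 := by
      refine a1.trans ?_
      have : (1 + δ) * Real.log (lrad l) ≤ (1 + δ) * (5 / 6 * H + (Lb + c5) + c4) :=
        mul_le_mul_of_nonneg_left (by linarith) (by linarith)
      linarith
    have a6 : H * ((1 - 5 * δ) / 6) ≤ (1 + δ) * Lb + C := by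
      rw [hCdef]
      nlinarith
    have hq : 0 < 3 + 5 * ε := by linarith
    have a7 : H ≤ 6 * (1 + 2 * ε) * Lb + 2 * (3 + 5 * ε) * C := by
      have e1 : H * ((1 - 5 * δ) / 6) * (2 * (3 + 5 * ε)) ≤
          ((1 + δ) * Lb + C) * (2 * (3 + 5 * ε)) :=
        mul_le_mul_of_nonneg_right a6 (by linarith)
      have e2 : H * ((1 - 5 * δ) / 6) * (2 * (3 + 5 * ε)) = H := by
        have : H * ((1 - 5 * δ) / 6) * (2 * (3 + 5 * ε)) =
          H * ((3 + 5 * ε) - 5 * (δ * (3 + 5 * ε))) / 3 := by ring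
        rw [this, hδ1]
        ring
      have e3 : ((1 + δ) * Lb + C) * (2 * (3 + 5 * ε)) =
          6 * (1 + 2 * ε) * Lb + 2 * (3 + 5 * ε) * C := by
        have : ((1 + δ) * Lb + C) * (2 * (3 + 5 * ε)) =
          2 * Lb * ((3 + 5 * ε) + δ * (3 + 5 * ε)) + 2 * (3 + 5 * ε) * C := by ring
        rw [this, hδ1]
        ring
      linarith
    have a8 := le_max_right M0 ((2 * (3 + 5 * ε) * C + c2 + c1) / 12)
    linarith

end Pool.Agent.E8helper25.FT
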